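import Pool.Agent.Work.MP_64ea0f_cs.InterfaceB

set_option autoImplicit false

/-! Blocks VX1 and VX2 of MP_64ea0f_al (helper87): vertices and flips. -/

namespace Pool.CS

namespace VX87

variable {D : Rd}

theorem rho_inv_rho (w : D.W) (v : D.V) : D.ρ w⁻¹ (D.ρ w v) = v := by
  rw [← Module.End.mul_apply, ← map_mul, inv_mul_cancel, map_one, Module.End.one_apply]

theorem rho_rho_inv (w : D.W) (v : D.V) : D.ρ w (D.ρ w⁻¹ v) = v := by
  rw [← Module.End.mul_apply, ← map_mul, mul_inv_cancel, map_one, Module.End.one_apply]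

theorem rho_inj (w : D.W) : Function.Injective (D.ρ w) := fun a b h => by
  have := congrArg (D.ρ w⁻¹) h
  rwa [rho_inv_rho, rho_inv_rho] at this

theorem act_one (x : Set D.V) : D.act 1 x = x := by
  unfold Rd.act
  rw [map_one]
  exact Set.image_id x

theorem act_mul (w w' : D.W) (x : Set D.V) : D.act (w * w') x = D.act w (D.act w' x) := by
  unfold Rd.act
  rw [Set.image_image, map_mul]
  rfl

theorem mem_act (w : D.W) (x : Set D.V) (φ : D.V) : φ ∈ x ↔ D.ρ w φ ∈ D.act w x := by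
  unfold Rd.act
  rw [(rho_inj w).mem_set_image]

theorem mem_act' (w : D.W) (x : Set D.V) (φ : D.V) : φ ∈ D.act w x ↔ D.ρ w⁻¹ φ ∈ x := by
  rw [mem_act w x (D.ρ w⁻¹ φ), rho_rho_inv]

end VX87

open VX87 in
theorem vx1_thm : Stmt_BAS → Stmt_SGN → Stmt_LEN → Stmt_VX1 := by
  intro hBAS hSGN hLEN D
  obtain ⟨-, -, -, -, -, -, hes, hrt, hneg, -⟩ := hBAS D
  obtain ⟨s1, s2, s3, s4, s5, s6, s7, s8, s9⟩ := hSGN D
  obtain ⟨l1, -⟩ := hLEN D
  have hSub : ∀ (w : D.W) (φ ψ : D.V), D.Sub φ ψ ↔ D.Sub (D.ρ w φ) (D.ρ w ψ) := by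
    intro w φ ψ
    constructor
    · intro h v hv
      have h1 := (s8 φ (w⁻¹ * v) w)
      have h2 := (s8 ψ (w⁻¹ * v) w)
      rw [mul_inv_cancel_left] at h1 h2
      exact h2.mp (h _ (h1.mpr hv))
    · intro h v hv
      exact (s8 ψ v w).mpr (h _ ((s8 φ v w).mp hv))
  have hnn : ∀ x, D.Vx x → ∀ φ ∈ x, -φ ∉ x := by
    intro x hx φ hφ hφ'
    obtain ⟨w, h1, h2⟩ := hx.cmp φ hφ (-φ) hφ'
    exact s7 _ _ h1 h2
  have hVact : ∀ x, D.Vx x → ∀ w, D.Vx (D.act w x) := by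
    intro x hx w
    refine ⟨?_, ?_, ?_, ?_⟩
    · rintro φ ⟨ψ, hψ, rfl⟩
      exact hrt ψ (hx.sub hψ) w
    · intro φ hφ
      rcases hx.tot (D.ρ w⁻¹ φ) (hrt φ hφ w⁻¹) with h | h
      · exact Or.inl ((mem_act' w x φ).mpr h)
      · refine Or.inr ((mem_act' w x (-φ)).mpr ?_)
        rwa [map_neg]
    · rintro φ ⟨φ', hφ', rfl⟩ ψ ⟨ψ', hψ', rfl⟩
      obtain ⟨v, h1, h2⟩ := hx.cmp φ' hφ' ψ' hψ'
      exact ⟨w * v, (s8 φ' v w).mp h1, (s8 ψ' v w).mp h2⟩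
    · refine (((hx.fin).union (l1 w)).image (D.ρ w)).subset ?_
      rintro φ ⟨⟨ψ, hψ, rfl⟩, h2⟩
      refine ⟨ψ, ?_, rfl⟩
      by_cases h3 : ψ ∈ D.Ps
      · exact Or.inr ⟨h3, h2⟩
      · exact Or.inl ⟨hψ, h3⟩
  refine ⟨?_, hVact, act_one, act_mul, mem_act, mem_act', ?_, ?_, hnn, ?_, ?_⟩
  · refine ⟨fun φ hφ => hφ.1, s1, ?_, ?_⟩
    · intro φ hφ ψ hψ
      refine ⟨1, ?_, ?_⟩
      · unfold Rd.On; rw [inv_one, map_one]; exact hφ
      · unfold Rd.On; rw [inv_one, map_one]; exact hψ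
    · rw [Set.sdiff_self]; exact Set.finite_empty
  · intro x hx w φ
    constructor
    · rintro ⟨h1, h2⟩
      refine ⟨(mem_act w x φ).mp h1, ?_⟩
      rintro ψ ⟨ψ', hψ', rfl⟩ h3
      rw [h2 ψ' hψ' ((hSub w ψ' φ).mpr h3)]
    · rintro ⟨h1, h2⟩
      refine ⟨(mem_act w x φ).mpr h1, ?_⟩
      intro ψ hψ h3
      exact rho_inj w (h2 (D.ρ w ψ) ((mem_act w x ψ).mp hψ) ((hSub w ψ φ).mp h3))
  · intro w hw
    apply D.triv
    intro s t
    have h1 : D.ρ w (D.e s) ∈ D.act w D.Ps := (mem_act w D.Ps (D.e s)).mp (s4 s)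
    rw [hw] at h1
    exact h1.2 t
  · intro x hx φ hφ ψ hψ h
    rcases hx.tot ψ hψ with h1 | h1
    · exact h1
    · obtain ⟨w, h2, h3⟩ := hx.cmp φ hφ (-ψ) h1
      exact (s7 _ _ (h w h2) h3).elim
  · intro x hx y hy
    have hyx : y \ x = (fun v : D.V => -v) '' (x \ y) := by
      ext φ
      constructor
      · rintro ⟨h1, h2⟩
        refine ⟨-φ, ⟨?_, hnn y hy φ h1⟩, neg_neg φ⟩
        rcases hx.tot φ (hy.sub h1) with h | h
        · exact absurd h h2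
        · exact h
      · rintro ⟨ψ, ⟨h1, h2⟩, rfl⟩
        refine ⟨?_, hnn x hx ψ h1⟩
        rcases hy.tot ψ (hx.sub h1) with h | h
        · exact absurd h h2
        · exact h
    refine ⟨?_, ?_, ?_⟩
    · refine ((hx.fin).union ((hy.fin).image (fun v : D.V => -v))).subset ?_
      rintro φ ⟨h1, h2⟩
      by_cases h3 : φ ∈ D.Ps
      · refine Or.inr ⟨-φ, ⟨?_, s2 φ h3⟩, neg_neg φ⟩
        rcases hy.tot φ (hx.sub h1) with h | h
        · exact absurd h h2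
        · exact h
      · exact Or.inl ⟨h1, h3⟩
    · rw [hyx, Set.ncard_image_of_injective _ neg_injective]
    · intro h
      refine Set.Subset.antisymm h ?_
      intro φ hφ
      by_contra h2
      rcases hx.tot φ (hy.sub hφ) with h3 | h3
      · exact h2 h3
      · exact hnn y hy φ hφ (h h3)

open VX87 in
theorem vx2_thm : Stmt_BAS → Stmt_SGN → Stmt_VX1 → Stmt_VX2 := by
  intro hBAS hSGN hVX1 D x hx φ hφ
  obtain ⟨-, -, -, -, -, -, hes, hrt, hneg, -⟩ := hBAS D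
  obtain ⟨s1, s2, s3, s4, s5, s6, s7, s8, s9⟩ := hSGN D
  obtain ⟨-, -, -, -, -, -, -, -, v9, v10, -⟩ := hVX1 D
  have hφx := hφ.1
  have hφR := hx.sub hφx
  have hnφ := v9 x hx φ hφx
  have hcross : ∀ ψ ∈ x, ψ ≠ φ → ∃ w, D.On w (-φ) ∧ D.On w ψ := by
    intro ψ hψ hne
    by_contra hcon
    push Not at hcon
    apply hne
    apply hφ.2 ψ hψ
    intro w hw
    rcases s6 φ hφR w with h | h
    · exact h
    · exact absurd hw (hcon w h)
  refine ⟨⟨?_, ?_, ?_, ?_⟩, ⟨Set.mem_insert _ _, ?_⟩, ?_, ?_, ?_⟩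
  · rintro ψ (rfl | ⟨h, -⟩)
    · exact hneg φ hφR
    · exact hx.sub h
  · intro ψ hψ
    rcases hx.tot ψ hψ with h | h
    · by_cases h1 : ψ = φ
      · subst h1; exact Or.inr (Set.mem_insert _ _)
      · exact Or.inl (Set.mem_insert_of_mem _ ⟨h, h1⟩)
    · by_cases h1 : -ψ = φ
      · refine Or.inl ?_
        have : ψ = -φ := by rw [← h1, neg_neg]
        rw [this]; exact Set.mem_insert _ _
      · exact Or.inr (Set.mem_insert_of_mem _ ⟨h, h1⟩)
  · rintro ψ (rfl | ⟨h, hne⟩) χ (rfl | ⟨h', hne'⟩)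
    · obtain ⟨w, hw⟩ := s9 (-φ) (hneg φ hφR)
      exact ⟨w, hw, hw⟩
    · exact hcross χ h' hne'
    · obtain ⟨w, h1, h2⟩ := hcross ψ h hne
      exact ⟨w, h2, h1⟩
    · exact hx.cmp ψ h χ h'
  · refine ((hx.fin).insert (-φ)).subset ?_
    rintro ψ ⟨h1, h2⟩
    rcases h1 with rfl | ⟨h, -⟩
    · exact Set.mem_insert _ _
    · exact Set.mem_insert_of_mem _ ⟨h, h2⟩
  · rintro ψ (rfl | ⟨h, hne⟩) h2
    · rfl
    · exact absurd (v10 x hx ψ h (-φ) (hneg φ hφR) h2) hnφ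
  · unfold Rd.fl
    rw [neg_neg]
    ext ψ
    constructor
    · rintro (rfl | ⟨h1 | h1, h2⟩)
      · exact hφx
      · exact absurd h1 h2
      · exact h1.1
    · intro h
      by_cases h1 : ψ = φ
      · exact Or.inl h1
      · refine Or.inr ⟨Or.inr ⟨h, h1⟩, ?_⟩
        intro h2
        rw [Set.mem_singleton_iff] at h2
        exact hnφ (h2 ▸ h)
  · intro h
    apply hnφ
    rw [← h]
    exact Set.mem_insert _ _
  · intro w
    unfold Rd.fl Rd.act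
    rw [Set.image_insert_eq, map_neg, Set.image_sdiff (rho_inj w), Set.image_singleton]

end Pool.CS
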